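import Pool.Agent.V7H45.CY.Spec3
import Pool.Agent.V7H94.CY.EX8
import Pool.Agent.V7H30.CY.P8
import Pool.Agent.V7H30.CY.P12
import Pool.Agent.W605.RT.PAR4
import Pool.Agent.W261.RT.Iso

/-!
# Project CYC, part 2: the curves with a point of order four and no larger subgroup are many
-/

set_option autoImplicit false

namespace Pool.Agent.V7H95.CY

open Finset Pool.Agent.W262.RK Pool.Agent.W307.RT Pool.Agent.V7H45.CY Pool.Agent.V7H94.CY

/-- a parametrisation by pairs bounds the number of the curves -/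
lemma cvc_card {m k : ℕ} {M N : ℤ → ℤ → ℤ} (hk : k ≠ 0) (h : PARC m k M N) :
    ∃ C : ℕ, ∀ H Y : ℕ, C * H ≤ Y ^ k → (CvC m H).card ≤ (2 * Y + 1) ^ 2 := by
  obtain ⟨C, F, hF⟩ := h
  refine ⟨C, fun H Y hY => ?_⟩
  obtain ⟨hinj, hpar⟩ := hF H
  have hmaps : ∀ c ∈ CvC m H, F c ∈ Icc (-(Y : ℤ)) Y ×ˢ Icc (-(Y : ℤ)) Y := by
    intro c hc
    obtain ⟨-, -, -, -, h1, h2, -⟩ := hpar c hc
    have h3 : (F c).1.natAbs ≤ Y := by
      by_contra hlt
      have := Nat.pow_lt_pow_left (not_le.1 hlt) hk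
      omega
    have h4 : (F c).2.natAbs ≤ Y := by
      by_contra hlt
      have := Nat.pow_lt_pow_left (not_le.1 hlt) hk
      omega
    rw [mem_product, mem_Icc, mem_Icc]
    omega
  have h1 := card_le_card_of_injOn F hmaps hinj
  refine h1.trans (le_of_eq ?_)
  rw [card_product, Int.card_Icc]
  have h2 : ((Y : ℤ) + 1 - -(Y : ℤ)).toNat = 2 * Y + 1 := by omega
  rw [h2, sq]

open Classical in
/-- the general form -/
theorem e4_of {M8 N8 M12 N12 M N : ℤ → ℤ → ℤ} (h8 : PARC 8 24 M8 N8) (h12 : PARC 12 48 M12 N12)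
    (h4 : PAR 4 12 M N) : S_E4 := by
  rintro ⟨c, C, T0, hc, hlow⟩
  obtain ⟨A1, hA1⟩ := cvc_card (by omega) h8
  obtain ⟨A2, hA2⟩ := cvc_card (by omega) h12
  obtain ⟨A3, hA3⟩ := cv_card (by omega) h4
  set K : ℕ := (A1 + A2 + A3) * (C + 1) + 1 with hK
  have hK1 : 1 ≤ K := by omega
  obtain ⟨n0, hn0⟩ := exists_nat_ge (216 * (K : ℝ) ^ 2 / c)
  refine ⟨c / 2, C + 1, max T0 (max n0 1), by linarith, fun T H hT hH => ?_⟩
  have hT0 : T0 ≤ T := le_trans (le_max_left _ _) hT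
  have hTn : n0 ≤ T := le_trans (le_trans (le_max_left _ _) (le_max_right _ _)) hT
  have hT1' : 1 ≤ T := le_trans (le_trans (le_max_right _ _) (le_max_right _ _)) hT
  have hle : ∀ t : ℕ, (C + 1) * t ^ 12 ≤ H → t ≤ H := by
    intro t ht
    calc t ≤ t ^ 12 := Nat.le_self_pow (by omega) t
      _ ≤ (C + 1) * t ^ 12 := Nat.le_mul_of_pos_left _ (by omega)
      _ ≤ H := ht
  set T1 := Nat.findGreatest (fun t => (C + 1) * t ^ 12 ≤ H) H with hT1
  have hs1 : (C + 1) * T1 ^ 12 ≤ H :=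
    Nat.findGreatest_spec (P := fun t => (C + 1) * t ^ 12 ≤ H) (hle T hH) hH
  have hs2 : T ≤ T1 := Nat.le_findGreatest (hle T hH) hH
  have hs3 : H ≤ (C + 1) * (T1 + 1) ^ 12 := by
    by_contra hlt
    have h1 : (C + 1) * (T1 + 1) ^ 12 ≤ H := (not_le.1 hlt).le
    have h2 : T1 + 1 ≤ T1 := Nat.le_findGreatest (hle _ h1) h1
    omega
  set Y : ℕ := K * (T1 + 1) with hY
  have hY1 : 1 ≤ Y := Nat.one_le_iff_ne_zero.2 (Nat.mul_ne_zero (by omega) (by omega))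
  have hYH : (A1 + A2 + A3) * H ≤ Y ^ 12 := by
    calc (A1 + A2 + A3) * H ≤ (A1 + A2 + A3) * ((C + 1) * (T1 + 1) ^ 12) :=
          Nat.mul_le_mul_left _ hs3
      _ = ((A1 + A2 + A3) * (C + 1)) * (T1 + 1) ^ 12 := by ring
      _ ≤ K ^ 12 * (T1 + 1) ^ 12 := by
          apply Nat.mul_le_mul_right
          calc (A1 + A2 + A3) * (C + 1) ≤ K := by omega
            _ ≤ K ^ 12 := Nat.le_self_pow (by omega) K
      _ = Y ^ 12 := by rw [hY, mul_pow]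
  have hY24 : Y ^ 12 ≤ Y ^ 24 := Nat.pow_le_pow_right hY1 (by omega)
  have hY48 : Y ^ 12 ≤ Y ^ 48 := Nat.pow_le_pow_right hY1 (by omega)
  have hb1 : A1 * H ≤ (A1 + A2 + A3) * H := Nat.mul_le_mul_right _ (by omega)
  have hb2 : A2 * H ≤ (A1 + A2 + A3) * H := Nat.mul_le_mul_right _ (by omega)
  have hb3 : A3 * H ≤ (A1 + A2 + A3) * H := Nat.mul_le_mul_right _ (by omega)
  have hc1 := hA1 H Y (by omega)
  have hc2 := hA2 H Y (by omega)
  have hc3 := hA3 H Y (by omega)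
  have hT11 : 1 ≤ T1 := hT1'.trans hs2
  clear_value Y T1 K
  have hYT : 2 * Y + 1 ≤ 6 * K * T1 := by
    have h3 : Y ≤ 2 * K * T1 := by
      calc Y = K * (T1 + 1) := hY
        _ ≤ K * (2 * T1) := Nat.mul_le_mul_left _ (by omega)
        _ = 2 * K * T1 := by ring
    have h4 : 1 ≤ 2 * K * T1 :=
      Nat.one_le_iff_ne_zero.2 (Nat.mul_ne_zero (Nat.mul_ne_zero two_ne_zero (by omega)) (by omega))
    have h5 : 6 * K * T1 = 3 * (2 * K * T1) := by ring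
    omega
  have hYT2 : (2 * Y + 1) ^ 2 ≤ (6 * K * T1) ^ 2 := Nat.pow_le_pow_left hYT 2
  have hsub : CvC 4 H ⊆ Q4 H ∪ (CvC 8 H ∪ (CvC 12 H ∪ Cv 4 H)) := by
    intro x hx
    by_cases hq : x ∈ Q4 H
    · exact mem_union_left _ hq
    · apply mem_union_right
      have hx' := hx
      simp only [CvC, mem_filter] at hx'
      simp only [Q4, mem_filter, not_and, not_not] at hq
      by_cases h8' : HasC 8 (Sh x.1 x.2)
      · apply mem_union_left
        simp only [CvC, mem_filter]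
        exact ⟨hx'.1, hx'.2.1, hx'.2.2.1, hx'.2.2.2.1, hx'.2.2.2.2.1, h8'⟩
      · apply mem_union_right
        by_cases h12' : HasC 12 (Sh x.1 x.2)
        · apply mem_union_left
          simp only [CvC, mem_filter]
          exact ⟨hx'.1, hx'.2.1, hx'.2.2.1, hx'.2.2.2.1, hx'.2.2.2.2.1, h12'⟩
        · apply mem_union_right
          have h4' := hq hx h8' h12'
          simp only [Cv, mem_filter]
          exact ⟨hx'.1, hx'.2.1, hx'.2.2.1, hx'.2.2.2.1, hx'.2.2.2.2.1, h4'⟩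
  have hcard : (CvC 4 H).card ≤ (Q4 H).card + 3 * (6 * K * T1) ^ 2 := by
    have h1 := card_le_card hsub
    have h2 := card_union_le (Q4 H) (CvC 8 H ∪ (CvC 12 H ∪ Cv 4 H))
    have h3 := card_union_le (CvC 8 H) (CvC 12 H ∪ Cv 4 H)
    have h4 := card_union_le (CvC 12 H) (Cv 4 H)
    omega
  have hcardR : ((CvC 4 H).card : ℝ) ≤ ((Q4 H).card : ℝ) + 3 * (6 * K * T1) ^ 2 := by
    exact_mod_cast hcard
  have hall := hlow T1 H (hT0.trans hs2) ((Nat.mul_le_mul_right _ (by omega)).trans hs1)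
  have hT1n : (216 * (K : ℝ) ^ 2 / c) ≤ T1 := hn0.trans (by exact_mod_cast hTn.trans hs2)
  have hT1r : (T : ℝ) ≤ T1 := by exact_mod_cast hs2
  have hTr : (0 : ℝ) ≤ T := Nat.cast_nonneg T
  rw [div_le_iff₀ hc] at hT1n
  have h5 : (T : ℝ) ^ 3 ≤ (T1 : ℝ) ^ 3 := by gcongr
  have h6 : 216 * (K : ℝ) ^ 2 * (T1 : ℝ) ^ 2 ≤ T1 * c * (T1 : ℝ) ^ 2 :=
    mul_le_mul_of_nonneg_right hT1n (by positivity)
  have h7 : (3 : ℝ) * (6 * K * T1) ^ 2 = 108 * (K : ℝ) ^ 2 * (T1 : ℝ) ^ 2 := by ring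
  have h8 : (T1 : ℝ) * c * (T1 : ℝ) ^ 2 = c * (T1 : ℝ) ^ 3 := by ring
  have h9 : c / 2 * (T : ℝ) ^ 3 ≤ c / 2 * (T1 : ℝ) ^ 3 :=
    mul_le_mul_of_nonneg_left h5 (by linarith)
  linarith

/-- JOB E4 -/
theorem t_E4 : S_E4 :=
  e4_of Pool.Agent.V7H30.CY.t_P8 Pool.Agent.V7H30.CY.t_P12
    (Pool.Agent.W605.RT.par4_of Pool.Agent.W261.RT.iso)

end Pool.Agent.V7H95.CY
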