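import Pool.Agent.V7H45.CY.Spec3
import Pool.Agent.V7H45.CY.Fin

/-!
# Project CYC, part 2: from the weighted box to the curves with a point of order four
-/

set_option autoImplicit false

namespace Pool.Agent.V7H95.CY

open Finset Pool.Agent.W262.RK Pool.Agent.W307.RT Pool.Agent.V7H45.CY

/-- the majorant for a point of the family -/
noncomputable def R3 (y : ℤ × (ℕ × ℕ × ℕ)) : ℝ := R8 (M3 y.2) (N3 y.1 y.2)

lemma R3_nonneg (y : ℤ × (ℕ × ℕ × ℕ)) : 0 ≤ R3 y := by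
  unfold R3 R8
  positivity

lemma mem_W3_of {e : ℤ} {X : ℕ} {ω : ℕ × ℕ × ℕ} (h : Ok3 e ω) (h1 : ω.1 * ω.2.1 ≤ X ^ 2)
    (h2 : ω.1 * ω.2.2 ≤ X ^ 4) : ω ∈ W3 e X := by
  have hh := h
  classical
  obtain ⟨a1, a2, a3, -⟩ := h
  have b1 : ω.1 ≤ ω.1 * ω.2.1 := Nat.le_mul_of_pos_right _ a2
  have b2 : ω.2.1 ≤ ω.1 * ω.2.1 := Nat.le_mul_of_pos_left _ a1
  have b3 : ω.2.2 ≤ ω.1 * ω.2.2 := Nat.le_mul_of_pos_left _ a1
  unfold W3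
  rw [mem_filter, mem_product, mem_product, mem_Icc, mem_Icc, mem_Icc]
  exact ⟨⟨⟨a1, b1.trans h1⟩, ⟨a2, b2.trans h1⟩, ⟨a3, b3.trans h2⟩⟩, hh, h1, h2⟩

/-- the sum over the weighted box bounds the sum over the curves -/
lemma sum_curves {A1 A2 : ℝ} (hA1 : ∀ X : ℕ, 1 ≤ X →
      ∑ ω ∈ W3 1 X, R8 (M3 ω) (N3 1 ω) ≤ A1 * (X : ℝ) ^ 6)
    (hA2 : ∀ X : ℕ, 1 ≤ X → ∑ ω ∈ W3 (-1) X, R8 (M3 ω) (N3 (-1) ω) ≤ A2 * (X : ℝ) ^ 6)
    (S : Finset (ℤ × ℤ)) (F : ℤ × ℤ → ℤ × (ℕ × ℕ × ℕ)) (X : ℕ) (hX : 1 ≤ X)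
    (h1 : ∀ y, (S.filter (fun c => F c = y)).card ≤ 2)
    (h2 : ∀ c ∈ S, ((F c).1 = 1 ∨ (F c).1 = -1) ∧ Ok3 (F c).1 (F c).2 ∧
      (F c).2.1 * (F c).2.2.1 ≤ X ^ 2 ∧ (F c).2.1 * (F c).2.2.2 ≤ X ^ 4 ∧
      Module.finrank ℤ (Sh c.1 c.2).toAffine.Point ≤
        Module.finrank ℤ (EAB (-(M3 (F c).2)) (-(N3 (F c).1 (F c).2))).toAffine.Point) :
    ∑ c ∈ S, RS c ≤ 2 * ((A1 + A2) * (X : ℝ) ^ 6) := by
  classical
  have e1 : ∑ c ∈ S, RS c ≤ ∑ c ∈ S, R3 (F c) := by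
    apply sum_le_sum
    intro c hc
    obtain ⟨-, -, -, -, h⟩ := h2 c hc
    unfold Pool.Agent.V7H45.CY.RS R3 R8
    apply Real.rpow_le_rpow_of_exponent_le (by norm_num)
    have : ((Module.finrank ℤ (Sh c.1 c.2).toAffine.Point : ℕ) : ℝ) ≤
        ((Module.finrank ℤ (EAB (-(M3 (F c).2)) (-(N3 (F c).1 (F c).2))).toAffine.Point :
          ℕ) : ℝ) := by
      exact_mod_cast h
    linarith
  have e2 : ∑ c ∈ S, R3 (F c) ≤ ∑ y ∈ S.image F, 2 * R3 y := by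
    rw [sum_comp (fun y => R3 y) F]
    apply sum_le_sum
    intro y _
    rw [nsmul_eq_mul]
    apply mul_le_mul_of_nonneg_right _ (R3_nonneg y)
    exact_mod_cast h1 y
  have e3 : S.image F ⊆ ({(1 : ℤ)} ×ˢ W3 1 X) ∪ ({(-1 : ℤ)} ×ˢ W3 (-1) X) := by
    intro y hy
    obtain ⟨c, hc, rfl⟩ := mem_image.1 hy
    obtain ⟨ha, hb, h3, h4, -⟩ := h2 c hc
    rw [mem_union, mem_product, mem_product, mem_singleton, mem_singleton]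
    rcases ha with ha | ha
    · left
      rw [ha] at hb
      exact ⟨ha, mem_W3_of hb h3 h4⟩
    · right
      rw [ha] at hb
      exact ⟨ha, mem_W3_of hb h3 h4⟩
  have e4 : ∑ y ∈ S.image F, 2 * R3 y ≤
      ∑ y ∈ ({(1 : ℤ)} ×ˢ W3 1 X) ∪ ({(-1 : ℤ)} ×ˢ W3 (-1) X), 2 * R3 y :=
    sum_le_sum_of_subset_of_nonneg e3 fun y _ _ => mul_nonneg two_pos.le (R3_nonneg y)
  have e5 : ∑ y ∈ ({(1 : ℤ)} ×ˢ W3 1 X) ∪ ({(-1 : ℤ)} ×ˢ W3 (-1) X), 2 * R3 y ≤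
      ∑ y ∈ ({(1 : ℤ)} ×ˢ W3 1 X), 2 * R3 y + ∑ y ∈ ({(-1 : ℤ)} ×ˢ W3 (-1) X), 2 * R3 y := by
    have h3 := sum_union_inter (s₁ := ({(1 : ℤ)} ×ˢ W3 1 X)) (s₂ := ({(-1 : ℤ)} ×ˢ W3 (-1) X))
      (f := fun y => 2 * R3 y)
    have h4 : 0 ≤ ∑ y ∈ ({(1 : ℤ)} ×ˢ W3 1 X) ∩ ({(-1 : ℤ)} ×ˢ W3 (-1) X), 2 * R3 y :=
      sum_nonneg fun y _ => mul_nonneg two_pos.le (R3_nonneg y)
    linarith
  have e6 : ∀ e : ℤ, ∑ y ∈ ({e} ×ˢ W3 e X), 2 * R3 y =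
      2 * ∑ ω ∈ W3 e X, R8 (M3 ω) (N3 e ω) := by
    intro e
    rw [sum_product, sum_singleton, mul_sum]
    rfl
  rw [e6, e6] at e5
  have h5 := hA1 X hX
  have h6 := hA2 X hX
  calc ∑ c ∈ S, RS c ≤ 2 * ∑ ω ∈ W3 1 X, R8 (M3 ω) (N3 1 ω) +
        2 * ∑ ω ∈ W3 (-1) X, R8 (M3 ω) (N3 (-1) ω) := e1.trans (e2.trans (e4.trans e5))
    _ ≤ 2 * (A1 * (X : ℝ) ^ 6) + 2 * (A2 * (X : ℝ) ^ 6) := by linarith
    _ = _ := by ring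

/-- JOB Z4 -/
theorem t_Z4 : S_Z4 := by
  intro hQ4 hAVG Q hQ hL
  obtain ⟨C0', F, hF⟩ := hQ4
  obtain ⟨c, C1, T0, hc, hlow⟩ := hL
  obtain ⟨A1', hA1'⟩ := hAVG 1 (Or.inl rfl)
  obtain ⟨A2', hA2'⟩ := hAVG (-1) (Or.inr rfl)
  obtain ⟨A, hA, hA1, hA2⟩ : ∃ A : ℝ, 0 ≤ A ∧ (∀ X : ℕ, 1 ≤ X →
      ∑ ω ∈ W3 1 X, R8 (M3 ω) (N3 1 ω) ≤ A * (X : ℝ) ^ 6) ∧
      (∀ X : ℕ, 1 ≤ X → ∑ ω ∈ W3 (-1) X, R8 (M3 ω) (N3 (-1) ω) ≤ A * (X : ℝ) ^ 6) := by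
    refine ⟨|A1'| + |A2'|, by positivity, fun X hX => ?_, fun X hX => ?_⟩
    · refine (hA1' X hX).trans (mul_le_mul_of_nonneg_right ?_ (by positivity))
      have := le_abs_self A1'
      have := abs_nonneg A2'
      linarith
    · refine (hA2' X hX).trans (mul_le_mul_of_nonneg_right ?_ (by positivity))
      have := le_abs_self A2'
      have := abs_nonneg A1'
      linarith
  obtain ⟨C0, hC0⟩ : ∃ C0 : ℕ, C0 = C0' + 1 := ⟨_, rfl⟩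
  obtain ⟨D, hD⟩ : ∃ D : ℕ, D = C0 * C1 + 1 := ⟨_, rfl⟩
  have hD1 : 1 ≤ D := by omega
  have hF' : ∀ H : ℕ, ∀ x ∈ Q H, ((F x).2.1 * (F x).2.2.1) ^ 12 ≤ C0 * H ∧
      ((F x).2.1 * (F x).2.2.2) ^ 6 ≤ C0 * H := by
    intro H x hx
    obtain ⟨_, _, h1, h2, _⟩ := (hF H).2 x (hQ H hx)
    have : C0' * H ≤ C0 * H := Nat.mul_le_mul_right _ (by omega)
    exact ⟨h1.trans this, h2.trans this⟩
  -- the sum is at most `B T ^ 3`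
  obtain ⟨B, hB⟩ : ∃ B : ℝ, B = 2048 * A := ⟨_, rfl⟩
  have hB0 : 0 ≤ B := by rw [hB]; positivity
  have hsum : ∀ H T : ℕ, 1 ≤ T → (∀ x ∈ Q H, (F x).2.1 * (F x).2.2.1 ≤ T ∧
      (F x).2.1 * (F x).2.2.2 ≤ (T + 1) ^ 2) → ∑ x ∈ Q H, RS x ≤ B * (T : ℝ) ^ 3 := by
    intro H T hT hx
    obtain ⟨s, hs⟩ : ∃ s : ℕ, s = Nat.sqrt (T + 1) := ⟨_, rfl⟩
    have hs1 : 1 ≤ s := by rw [hs]; exact Nat.le_sqrt.2 (by omega)
    have hs2 : s * s ≤ T + 1 := by rw [hs]; exact Nat.sqrt_le _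
    have hs3 : T + 1 ≤ (s + 1) ^ 2 := by
      rw [hs, sq]
      exact (Nat.lt_succ_sqrt (T + 1)).le
    have hX2 : (s + 1) ^ 2 ≤ 8 * T := by
      calc (s + 1) ^ 2 ≤ (2 * s) ^ 2 := Nat.pow_le_pow_left (by omega) 2
        _ = 4 * (s * s) := by ring
        _ ≤ 4 * (T + 1) := Nat.mul_le_mul_left _ hs2
        _ ≤ 8 * T := by omega
    have h3 := sum_curves hA1 hA2 (Q H) F (s + 1) (by omega) (fun y => by
        refine le_trans (card_le_card ?_) ((hF H).1 y)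
        exact filter_subset_filter _ (hQ H)) (fun x hx' => by
        obtain ⟨a1, a2, _, _, a5⟩ := (hF H).2 x (hQ H hx')
        obtain ⟨b1, b2⟩ := hx x hx'
        refine ⟨a1, a2, by omega, b2.trans ?_, a5⟩
        calc (T + 1) ^ 2 ≤ ((s + 1) ^ 2) ^ 2 := Nat.pow_le_pow_left hs3 2
          _ = (s + 1) ^ 4 := by ring)
    refine h3.trans ?_
    have h4 : (((s + 1 : ℕ) : ℝ)) ^ 6 ≤ 512 * (T : ℝ) ^ 3 := by
      have h5 : (s + 1) ^ 6 ≤ 512 * T ^ 3 := by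
        calc (s + 1) ^ 6 = ((s + 1) ^ 2) ^ 3 := by ring
          _ ≤ (8 * T) ^ 3 := Nat.pow_le_pow_left hX2 3
          _ = 512 * T ^ 3 := by ring
      exact_mod_cast h5
    calc 2 * ((A + A) * (((s + 1 : ℕ) : ℝ)) ^ 6) ≤ 2 * ((A + A) * (512 * (T : ℝ) ^ 3)) := by
          gcongr
      _ = B * (T : ℝ) ^ 3 := by rw [hB]; ring
  change ∃ C : ℝ, ∀ H : ℕ, ∑ c ∈ Q H, RS c ≤ C * ((Q H).card : ℝ)
  refine ⟨B * ((D * (T0 + 1) : ℕ) : ℝ) ^ 3 + B * (2 * (D : ℝ)) ^ 3 / c, fun H => ?_⟩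
  obtain ⟨K, hK⟩ : ∃ K : ℕ, K = (Q H).card := ⟨_, rfl⟩
  rw [← hK]
  by_cases hK0 : K = 0
  · have : Q H = ∅ := card_eq_zero.1 (hK ▸ hK0)
    rw [this, sum_empty, hK0]
    simp
  have hK1 : (1 : ℝ) ≤ K := by exact_mod_cast Nat.one_le_iff_ne_zero.2 hK0
  have hq0 : 0 ≤ B * (2 * (D : ℝ)) ^ 3 / c := by positivity
  have hr0 : 0 ≤ B * ((D * (T0 + 1) : ℕ) : ℝ) ^ 3 := by positivity
  obtain ⟨T, hT⟩ : ∃ T : ℕ, T = Nat.findGreatest (fun t => t ^ 12 ≤ C0 * H) (C0 * H) := ⟨_, rfl⟩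
  have hle : ∀ x : ℕ, x ^ 12 ≤ C0 * H → x ≤ T := by
    intro x hx
    rw [hT]
    apply Nat.le_findGreatest
    · exact (Nat.le_self_pow (by omega) x).trans hx
    · exact hx
  have hTk : T ^ 12 ≤ C0 * H := by
    have : (fun t => t ^ 12 ≤ C0 * H) T := by
      rw [hT]
      exact Nat.findGreatest_spec (P := fun t => t ^ 12 ≤ C0 * H) (Nat.zero_le _)
        (by rw [zero_pow (by omega)]; exact Nat.zero_le _)
    exact this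
  have hTk1 : C0 * H < (T + 1) ^ 12 := by
    by_contra hcon
    have := hle (T + 1) (not_lt.1 hcon)
    omega
  have hxT : ∀ x ∈ Q H, (F x).2.1 * (F x).2.2.1 ≤ T ∧ (F x).2.1 * (F x).2.2.2 ≤ (T + 1) ^ 2 := by
    intro x hx
    obtain ⟨a1, a2⟩ := hF' H x hx
    refine ⟨hle _ a1, ?_⟩
    by_contra hcon
    have h1 : ((T + 1) ^ 2) ^ 6 < ((F x).2.1 * (F x).2.2.2) ^ 6 :=
      Nat.pow_lt_pow_left (not_le.1 hcon) (by omega)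
    have h2 : ((T + 1) ^ 2) ^ 6 = (T + 1) ^ 12 := by ring
    omega
  rcases Nat.lt_or_ge T (D * (T0 + 1)) with hlt | hge
  · have h1 := hsum H (D * (T0 + 1)) (Nat.mul_pos hD1 (Nat.succ_pos _)) fun x hx =>
      ⟨(hxT x hx).1.trans hlt.le, (hxT x hx).2.trans (Nat.pow_le_pow_left (by omega) 2)⟩
    calc _ ≤ B * ((D * (T0 + 1) : ℕ) : ℝ) ^ 3 := h1
      _ ≤ B * ((D * (T0 + 1) : ℕ) : ℝ) ^ 3 * K := le_mul_of_one_le_right hr0 hK1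
      _ ≤ _ := by
        apply mul_le_mul_of_nonneg_right _ (by linarith)
        linarith
  · have hT1 : 1 ≤ T := (Nat.mul_pos hD1 (Nat.succ_pos _)).trans_le hge
    have h1 := hsum H T hT1 hxT
    obtain ⟨T', hT'⟩ : ∃ T' : ℕ, T' = T / D := ⟨_, rfl⟩
    have hT'0 : T0 + 1 ≤ T' := by
      rw [hT', Nat.le_div_iff_mul_le hD1, mul_comm]
      exact hge
    have h2 : T' * D ≤ T := by rw [hT']; exact Nat.div_mul_le_self T D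
    have h3 : C1 * T' ^ 12 ≤ H := by
      have a1 : (T' * D) ^ 12 ≤ C0 * H := (Nat.pow_le_pow_left h2 12).trans hTk
      rw [mul_pow] at a1
      have a2 : D ≤ D ^ 12 := Nat.le_self_pow (by omega) D
      have a3 : T' ^ 12 * (C0 * C1) ≤ C0 * H :=
        (Nat.mul_le_mul_left _ (by omega : C0 * C1 ≤ D ^ 12)).trans a1
      have a4 : C0 * (C1 * T' ^ 12) ≤ C0 * H := by
        calc C0 * (C1 * T' ^ 12) = T' ^ 12 * (C0 * C1) := by ring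
          _ ≤ _ := a3
      exact Nat.le_of_mul_le_mul_left a4 (by omega)
    have h4 := hlow T' H (by omega) h3
    rw [← hK] at h4
    have h5 : T ≤ 2 * D * T' := by
      have a1 : T < D * (T' + 1) := by
        rw [mul_comm]
        exact Nat.lt_mul_of_div_lt (by rw [← hT']; omega) hD1
      have a2 : D * (T' + 1) ≤ D * (2 * T') := Nat.mul_le_mul_left _ (by omega)
      have a3 : D * (2 * T') = 2 * D * T' := by ring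
      omega
    have h6 : (T : ℝ) ≤ 2 * D * T' := by exact_mod_cast h5
    calc _ ≤ B * (T : ℝ) ^ 3 := h1
      _ ≤ B * (2 * D * T') ^ 3 := by
        apply mul_le_mul_of_nonneg_left _ hB0
        exact pow_le_pow_left₀ (Nat.cast_nonneg _) h6 3
      _ = B * (2 * D) ^ 3 / c * (c * (T' : ℝ) ^ 3) := by
        field_simp
      _ ≤ B * (2 * D) ^ 3 / c * K := mul_le_mul_of_nonneg_left h4 hq0
      _ ≤ _ := by
        apply mul_le_mul_of_nonneg_right _ (by linarith)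
        linarith

end Pool.Agent.V7H95.CY
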